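import Pool.Agent.U404.MU.Typ

/-!
# Almost all admissible `k`-tuples: `5 k / 18` of the shifts carry all patterns of primes

The question asks for simultaneous primes `n + a_1, …, n + a_k` for admissible sets. Maynard and Tao have about
`log k` primes among them, for EVERY admissible set of `k` shifts. Here it is shown that ALMOST all `k`-element
subsets of an arbitrary large finite admissible set contain a set `J` of at least `5 k / 18` shifts for which not only
simultaneous primes `n + a`, `a ∈ J`, occur, but all `2 ^ |J|` patterns of prime and composite values, along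
progressions `n, n + d, …, n + (l - 1) d` of every length `l`, and with the frequency `N / (log N) ^ C`.

Proof. If a positive proportion of the `k`-element subsets of a large admissible set had no such part, then (Erdős)
a product `A_1 × ⋯ × A_k` of `k` large sets `A_1 < ⋯ < A_k` would consist of such sets. By the coloured Maynard-Tao
theorem with all patterns (`Pool.Agent.Y827.HN.patR`) at every large height `N` all patterns occur on one element of
each of `5 k / 18` of the sets `A_g`. There are finitely many possibilities, so one of them is met at arbitrarily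
large heights for every length of the progressions.
-/

set_option autoImplicit false

namespace Pool.Agent.Results.MP_f686a1_nt.AlmostAllTuples

open Filter

/-- for every prime `p` some residue class modulo `p` contains no element of `F` -/
def Admissible (F : Finset ℕ) : Prop := ∀ p : ℕ, p.Prime → ∃ c : ℕ, ∀ a ∈ F, ¬ a ≡ c [MOD p]

/-- the number of the `n`, `1 ≤ n ≤ N`, such that for each `m = n, n + d, …, n + (l - 1) d` exactly those of the
numbers `m + a`, `a ∈ J`, with `a ∈ A` are prime -/
noncomputable def count (J A : Finset ℕ) (l d N : ℕ) : ℕ :=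
  {n : ℕ | 1 ≤ n ∧ n ≤ N ∧ ∀ i < l, ∀ a ∈ J, (n + i * d + a).Prime ↔ a ∈ A}.ncard

/-- all patterns of prime and composite numbers `n + a`, `a ∈ J`, occur along progressions of every length -/
def AllPatterns (J : Finset ℕ) : Prop :=
  ∀ l : ℕ, ∃ C : ℕ, ∃ᶠ N : ℕ in atTop, ∀ A ⊆ J, ∃ d : ℕ, 1 ≤ d ∧ (d : ℝ) ≤ (Real.log N) ^ C ∧
    (N : ℝ) / (Real.log N) ^ C ≤ (count J A l d N : ℝ)

/-- **Almost all admissible `k`-tuples.** For every `k ≥ 1` and `ε > 0` there is `n₀` such that for EVERY admissible
set `F` of at least `n₀` natural numbers all but at most `ε * (|F| choose k)` of the subsets `I` of `F` with `k`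
elements contain a set `J` of at least `5 k / 18` elements with `AllPatterns J`. -/
theorem result (k : ℕ) (hk : 1 ≤ k) (ε : ℝ) (hε : 0 < ε) : ∃ n₀ : ℕ, ∀ F : Finset ℕ, Admissible F →
    n₀ ≤ F.card → ({I : Finset ℕ | I ⊆ F ∧ I.card = k ∧ ¬ ∃ J ⊆ I, 5 * k ≤ 18 * J.card ∧ AllPatterns J}.ncard : ℝ) ≤
      ε * (F.card.choose k : ℝ) := by
  classical
  obtain ⟨φ, hφ⟩ : ∃ φ : ℕ → ℤ × ℤ, φ = fun a : ℕ => ((1 : ℤ), (a : ℤ)) := ⟨_, rfl⟩
  have hφi : ∀ r r' : ℕ, φ r = φ r' → r = r' := by
    intro r r' h
    rw [hφ] at h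
    have h1 := (Prod.mk.inj h).2
    exact_mod_cast h1
  obtain ⟨n₀, hn₀⟩ := Pool.Agent.U404.MU.typical hk hε
  refine ⟨n₀, fun F hF hn => le_trans ?_ (hn₀ φ F ⟨fun r hr => ?_, fun r _ r' _ h => hφi r r' h, fun p hp => ?_⟩ hn)⟩
  · rw [Nat.cast_le, ← Set.ncard_coe_finset]
    refine Set.ncard_le_ncard ?_ (Finset.finite_toSet _)
    rintro I ⟨hI1, hI2, hI3⟩
    rw [Finset.mem_coe, Finset.mem_filter, Finset.mem_powersetCard]
    refine ⟨⟨hI1, hI2⟩, fun J hJ hJk hG => hI3 ⟨J, hJ, hJk, fun l => ?_⟩⟩
    obtain ⟨C, hC⟩ := Pool.Agent.U404.MU.good_count (fun r _ r' _ h => hφi r r' h) hG l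
    refine ⟨C, hC.mono fun N hN A hA => ?_⟩
    obtain ⟨d, h1, h2, h3⟩ := hN A hA
    refine ⟨d, h1, h2, h3.trans (le_of_eq ?_)⟩
    unfold count
    congr 2
    ext n
    have e : ∀ i r : ℕ, ((φ r).1 * ((n + i * d : ℕ) : ℤ) + (φ r).2).toNat = n + i * d + r := by
      intro i r
      have h4 : (φ r).1 * ((n + i * d : ℕ) : ℤ) + (φ r).2 = ((n + i * d + r : ℕ) : ℤ) := by
        rw [hφ]
        push_cast
        ring
      rw [h4, Int.toNat_natCast]
    simp only [Set.mem_ofPred_eq, e]
  · rw [hφ]
    exact ⟨one_pos, isCoprime_one_left⟩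
  · obtain ⟨c, hc⟩ := hF p hp
    refine ⟨-(c : ℤ), fun a ha hd => hc a ha ?_⟩
    have hd1 : (p : ℤ) ∣ (a : ℤ) - (c : ℤ) := by
      have h5 : (φ a).1 * -(c : ℤ) + (φ a).2 = (a : ℤ) - (c : ℤ) := by
        rw [hφ]
        ring
      rw [h5] at hd
      exact hd
    exact ((Nat.modEq_iff_dvd).2 hd1).symm

end Pool.Agent.Results.MP_f686a1_nt.AlmostAllTuples
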