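import Pool.Agent.U837.CC.Tu
import Pool.Agent.U837.CC.Cr

/-!
# Prime tuples for all the multiples of all the integers near concatenated polynomial values

The sets `{0, h 1 * q 1, ..., h s * q s}` where `1 ≤ h i ≤ k ^ J` and `q i` is any integer within `k ^ W` of the integer whose
digits in some base `b ≤ k ^ W` are those of `f_1(n)`, `f_2(n)`, ..., `f_r(n)` written one after the other, `n = n i`, where
`f_1, ..., f_r` are ANY integer polynomials of distinct degrees between `1` and `D` with coefficients of absolute value at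
most `k ^ W`: for almost all the vectors `(n 1, ..., n s)`, simultaneously for all these bases, polynomials, `q` and `h`. For
example (base ten): for almost all `n`, all the multiples of all the integers near the integer with the digits of `n`,
`n ^ 2` and `n ^ 3` one after the other. For given bases and polynomials these are thin sets: `x` integers of the size
`x ^ (deg f_1 + ... + deg f_r)`.

Method: the integers with a given number of digits in every block are the values `∑_i b ^ (e_i) f_i(n)` of a polynomial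
with huge coefficients. An inverse theorem for Weyl sums with ALL the coefficients (`Pool.Agent.U837.CC.IWF_all`, new, deduced
from the one for the leading coefficient in `H373R2/NB/Weyl`) shows, one block after the other, that a frequency `β` with
a large exponential sum is such that all the `b ^ (e_i) β` are close to rational numbers with one small denominator (here the
degrees have to be distinct); only few frequencies have this property, also for the multiples of the integers
(`Pool.Agent.U837.CC.count_vec`, `Pool.Agent.U837.CC.cc_tcls`). The passage from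
such a description of the large frequencies to prime tuples is from the starting files (`Pool.Agent.N625.PT.t_tuples`). The number of the choices of the digit lengths, of the
bases and of the polynomials is only a power of `k` (`Pool.Agent.U837.CC.vec_cat`).
-/

set_option autoImplicit false

namespace Pool.Agent.Results.MP_f686a1_nt.Concatenations

open Finset Polynomial

/-- The set `{0, a 1, ..., a s}` is admissible: for every prime `p` some class modulo `p` contains none of its elements. -/
def Admissible {s : ℕ} (a : Fin s → ℕ) : Prop :=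
  ∀ p : ℕ, p.Prime → ∃ c : ℕ, ¬ 0 ≡ c [MOD p] ∧ ∀ i, ¬ a i ≡ c [MOD p]

/-- the number of the `n ≤ N` for which `n` and all the numbers `n + a i` are primes -/
def count {s : ℕ} (a : Fin s → ℕ) (N : ℕ) : ℕ := ((Icc 1 N).filter (fun n : ℕ => n.Prime ∧ ∀ i, (n + a i).Prime)).card

/-- the number of the classes `r` modulo `p` for which `p` divides one of the numbers `r`, `r + a i` -/
def nu {s : ℕ} (a : Fin s → ℕ) (p : ℕ) : ℕ := ((range p).filter (fun r => p ∣ r ∨ ∃ i, p ∣ r + a i)).card

/-- the product over the primes `p ≤ z` which occurs in the singular series -/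
noncomputable def sing {s : ℕ} (a : Fin s → ℕ) (z : ℕ) : ℝ :=
  ∏ p ∈ (Icc 1 z).filter Nat.Prime, (1 - (nu a p : ℝ) / p) / (1 - 1 / (p : ℝ)) ^ (s + 1)

/-- The singular series converges, and if `{0, a 1, ..., a s}` is admissible then its value `S` is positive and the number
of the `n ≤ N` for which `n` and all the `n + a i` are primes is `S N / log ^ (s + 1) N` up to a relative error of at most `ε`. -/
def HardyLittlewood {s : ℕ} (ε : ℝ) (N : ℕ) (a : Fin s → ℕ) : Prop :=
  ∃ S : ℝ, Filter.Tendsto (fun z => sing a z) Filter.atTop (nhds S) ∧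
    (Admissible a → 0 < S ∧
      |(count a N : ℝ) - S * (N / Real.log N ^ (s + 1))| ≤ ε * (S * (N / Real.log N ^ (s + 1))))

/-- The number whose digits in base `b`, read from the left to the right, are those of `f(n)`, `f ∈ F`, written one after
the other. -/
noncomputable def concat (b : ℕ) (F : List ℤ[X]) (n : ℕ) : ℕ :=
  Nat.ofDigits b ((F.reverse.map (fun f => Nat.digits b (f.eval (n : ℤ)).toNat)).flatten)

/-- The base `b` satisfies `2 ≤ b ≤ r`; the list `F` is not empty, and the members of `F` have distinct degrees between `1`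
and `D`, coefficients of absolute value at most `r`, and nonnegative values at `n`. -/
def Small (D : ℕ) (r : ℝ) (n b : ℕ) (F : List ℤ[X]) : Prop :=
  (2 ≤ b ∧ (b : ℝ) ≤ r) ∧ F ≠ [] ∧ (F.map natDegree).Nodup ∧
    ∀ f ∈ F, 1 ≤ f.natDegree ∧ f.natDegree ≤ D ∧ (∀ i, |((f.coeff i : ℤ) : ℝ)| ≤ r) ∧ 0 ≤ f.eval (n : ℤ)

/-- `2 ^ k / k ^ W ≤ a ≤ 2 ^ k`. -/
def Scale (W k a : ℕ) : Prop := (2 : ℝ) ^ k ≤ (k : ℝ) ^ W * a ∧ a ≤ 2 ^ k

/-- For ALL the integers `q i ≥ 0` at a distance of at most `k ^ W` from `a i` and ALL the factors `1 ≤ h i ≤ k ^ J`: the formula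
of Hardy and Littlewood holds for the set `{0, h 1 * q 1, ..., h s * q s}`, and if this set is admissible then for every
real number `x ≥ N` there is a positive integer `n ≤ x` such that `n` and all the numbers `n + h i * q i` are primes. -/
def Good {s : ℕ} (ε : ℝ) (J W k N : ℕ) (a : Fin s → ℕ) : Prop :=
  ∀ q : Fin s → ℕ, (∀ i, |(q i : ℤ) - a i| ≤ (k : ℤ) ^ W) → ∀ h : Fin s → ℕ, (∀ i, 1 ≤ h i ∧ h i ≤ k ^ J) →
    HardyLittlewood ε N (fun i => h i * q i) ∧ (Admissible (fun i => h i * q i) →
      ∀ x : ℝ, (N : ℝ) ≤ x → ∃ n : ℕ, 0 < n ∧ (n : ℝ) ≤ x ∧ n.Prime ∧ ∀ i, (n + h i * q i).Prime)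

open Classical in
/-- The number of the vectors `n`, `1 ≤ n i ≤ x i`, for which there are bases `b i` and lists `F i` of polynomials with
`Small D (k ^ W) (n i) (b i) (F i)` such that the integers `a i = concat (b i) (F i) (n i)` are between `2 ^ k / k ^ W` and
`2 ^ k` and `Good ε J W k N a` fails. -/
noncomputable def exceptions {s : ℕ} (D : ℕ) (ε : ℝ) (J W k N : ℕ) (x : Fin s → ℕ) : ℕ :=
  ((Fintype.piFinset (fun i => Icc 1 (x i))).filter (fun n => ∃ (b : Fin s → ℕ) (F : Fin s → List ℤ[X]),
    (∀ i, Small D ((k : ℝ) ^ W) (n i) (b i) (F i) ∧ Scale W k (concat (b i) (F i) (n i))) ∧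
    ¬ Good ε J W k N (fun i => concat (b i) (F i) (n i)))).card

lemma sing_eq {s : ℕ} (a : Fin s → ℕ) (z : ℕ) : Pool.Agent.H373R2.T7.singZ (fun i => (a i : ℤ)) z = sing a z := by
  unfold Pool.Agent.H373R2.T7.singZ sing
  apply prod_congr rfl
  intro p _
  have : Pool.Agent.H373R2.T7.nuP (fun i => (a i : ℤ)) p = nu a p := by
    unfold Pool.Agent.H373R2.T7.nuP nu
    congr 1
    apply filter_congr
    intro r _
    constructor
    · rintro (h | ⟨i, h⟩)
      · exact Or.inl h
      · refine Or.inr ⟨i, ?_⟩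
        simp only at h
        exact_mod_cast h
    · rintro (h | ⟨i, h⟩)
      · exact Or.inl h
      · refine Or.inr ⟨i, ?_⟩
        simp only
        exact_mod_cast h
  rw [this]

lemma adm_of {s : ℕ} (a : Fin s → ℕ) (h : Admissible a) : Pool.Agent.H373R2.T7.Admissible (fun i => (a i : ℤ)) := by
  intro p hp
  obtain ⟨c, h1, h2⟩ := h p hp
  refine ⟨-(c : ℤ), ?_, fun i => ?_⟩
  · intro h3
    apply h1
    rw [Int.dvd_neg] at h3
    have h4 : p ∣ c := by exact_mod_cast h3
    exact ((Nat.modEq_zero_iff_dvd).2 h4).symm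
  · intro h3
    apply h2 i
    apply Nat.ModEq.symm
    rw [Nat.modEq_iff_dvd]
    have e : ((a i : ℕ) : ℤ) - (c : ℤ) = -(c : ℤ) + a i := by ring
    rw [e]
    exact h3

lemma hl_of {s : ℕ} {ε : ℝ} {U N : ℕ} {a : Fin s → ℕ} (h : Pool.Agent.W93.TD.HLs ε U N a) : HardyLittlewood ε N a := by
  obtain ⟨S, h1, -, h3⟩ := h
  refine ⟨S, ?_, fun hadm => h3 (adm_of a hadm)⟩
  simp only [sing_eq] at h1
  exact h1

lemma cond_of {D W k n b : ℕ} {F : List ℤ[X]} (h1 : Small D ((k : ℝ) ^ W) n b F) (h2 : Scale W k (concat b F n)) :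
    Pool.Agent.U837.CC.Cond D W k n b F.reverse := by
  obtain ⟨⟨a1, a2⟩, a3, a4, a5⟩ := h1
  exact ⟨a1, a2, Pool.Agent.U837.CC.adm_rev ⟨a3, a4, a5⟩, h2.1, h2.2⟩

/-- **Prime tuples for all the multiples of all the integers near concatenated polynomial values.** Let `s ≥ 1`, `D`, `W`,
`U`, `J` and `0 < ε < 1` be fixed. There is `B` such that for every `J₂`, all large `k`, all `N` with
`k ^ B 2 ^ k ≤ N ≤ k ^ J₂ 2 ^ k` and all `x 1, ..., x s` the following holds for all but at most `x 1 ⋯ x s / k ^ U` of the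
vectors `n`, `1 ≤ n i ≤ x i`: for ALL the bases `b i ≤ k ^ W` and ALL the lists `F i` of integer polynomials of distinct
degrees between `1` and `D` with coefficients of absolute value at most `k ^ W` and nonnegative values at `n i`, for which
the integers `a i` whose digits in base `b i` are those of `f(n i)`, `f ∈ F i`, written one after the other are between
`2 ^ k / k ^ W` and `2 ^ k`; for ALL the integers `q i ≥ 0` at a distance of at most `k ^ W` from `a i` and ALL the factors
`1 ≤ h i ≤ k ^ J`: the singular series of the set `{0, h 1 * q 1, ..., h s * q s}` converges, and if this set is admissible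
then the formula of Hardy and Littlewood holds for the number of the `n ≤ N` for which `n` and all the numbers
`n + h i * q i` are primes, and there is such an `n ≤ x` for every real number `x ≥ N`. -/
theorem result (s : ℕ) (hs : 1 ≤ s) (D W U J : ℕ) (ε : ℝ) (hε : 0 < ε) (hε1 : ε < 1) : ∃ B : ℕ, ∀ J₂ : ℕ, ∃ k₀ : ℕ,
    ∀ k : ℕ, k₀ ≤ k → ∀ N : ℕ, k ^ B * 2 ^ k ≤ N → N ≤ k ^ J₂ * 2 ^ k → ∀ x : Fin s → ℕ,
      (exceptions D ε J W k N x : ℝ) ≤ (∏ i, (x i : ℝ)) / (k : ℝ) ^ U := by
  classical
  obtain ⟨B, hB⟩ := Pool.Agent.U837.CC.cc_tuples s hs D W U J ε hε (fun N a => HardyLittlewood ε N a ∧ (Admissible a →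
      ∀ x : ℝ, (N : ℝ) ≤ x → ∃ n : ℕ, 0 < n ∧ (n : ℝ) ≤ x ∧ n.Prime ∧ ∀ i, (n + a i).Prime)) (by
    intro U' N a hN3 hHL
    have h1 := hl_of hHL
    refine ⟨h1, fun hadm x hx => ?_⟩
    obtain ⟨S, -, h2⟩ := h1
    obtain ⟨hS, h3⟩ := h2 hadm
    have hNr : (3 : ℝ) ≤ N := by exact_mod_cast hN3
    have hlog : 0 < Real.log N := Real.log_pos (by linarith)
    have hpos : 0 < S * (N / Real.log N ^ (s + 1)) := by positivity
    have h4 : (0 : ℝ) < (count a N : ℝ) := by
      have := (abs_le.1 h3).1
      nlinarith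
    have h5 : 0 < count a N := by exact_mod_cast h4
    unfold count at h5
    rw [card_pos] at h5
    obtain ⟨n, hn⟩ := h5
    rw [mem_filter, mem_Icc] at hn
    exact ⟨n, hn.1.1, le_trans (by exact_mod_cast hn.1.2) hx, hn.2.1, hn.2.2⟩)
  refine ⟨B, fun J₂ => ?_⟩
  obtain ⟨k₀, h0⟩ := hB J₂
  refine ⟨k₀, fun k hk N hN1 hN2 x => ?_⟩
  unfold exceptions
  refine h0 k hk N hN1 hN2 x _ (filter_subset _ _) ?_
  intro n hn
  rw [mem_filter] at hn
  obtain ⟨_, b, F, h1, h2⟩ := hn
  unfold Good at h2
  push Not at h2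
  obtain ⟨q, hq, h, hh, hbad⟩ := h2
  refine ⟨b, fun i => (F i).reverse, q, h, fun i => cond_of (h1 i).1 (h1 i).2, hq, hh, ?_⟩
  rintro ⟨c1, c2⟩
  obtain ⟨c3, x', c4, c5⟩ := hbad c1
  obtain ⟨m, m1, m2, m3, m4⟩ := c2 c3 x' c4
  obtain ⟨i, hi⟩ := c5 m m1 m2 m3
  exact hi (m4 i)

end Pool.Agent.Results.MP_f686a1_nt.Concatenations
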