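import Mathlib
import Pool.Agent.U289.NX.Tra

/-!
# Free sets of shifts, with clusters near almost all members of every array

Let `q ≥ 1`, let `r` be prime to `q`, let `w ≥ 1`, and let `x_0, x_1, …` be any distinct integers in one residue
class `c` modulo `w` (`w = 1`: any distinct integers; every infinite set of integers contains such sequences for
every `w`). Let `0 < ε < 1`, and let `k_j`, `m_j ≥ 1` be any integers. There are numbers `C_0, C_1, …` such that for
ALL integers `v_{j,i}`, `i < k_j`, and ALL finitely supported probability measures `μ_0, μ_1, …` on the natural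
numbers there are a set `E` of multiples of `w` and `J_0 < J_1 < …` with the following two properties.

(1) For infinitely many `t` the set of the `j`, for which at least `(1 - ε) k_j` of the intervals
`[v_{j,i}, v_{j,i} + C_j]` contain at least `m_j` elements of `E`, has `μ_t`-measure at least `1 - ε`.

(2) The elements of `E` can be combined freely: for all `k`, `b` and `i_1 < ⋯ < i_k` with `k, b ≤ i_1`, for every
length `l` and every `B` there are `C` and arbitrarily large `N`, the same for ALL choices of `s_1, …, s_k` in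
`E` with `|s_u| ≤ b` (equal or not) and all `J ⊆ {1, …, k}`, such that for some `1 ≤ d ≤ (log N) ^ C` there are at
least `N / (log N) ^ C` integers `n ≤ N` with: for each `m = n, n + d, …, n + (l - 1) d`, among the `k` numbers
`q (m + x_{J_{i_u}} + s_u) + r` exactly those with `u ∈ J` are prime, and no number `q (m + z) + r` with `|z| ≤ B`
and `z` not congruent to `c` modulo `w` is prime.

So (`q = 1`, `r = 0`) all the vectors of shifts `(x_{J_{i_1}} + s_1, …, x_{J_{i_k}} + s_k)`, `k` arbitrary, satisfy the
prime `k`-tuples conjecture in a strong form: all the patterns occur often, along narrow progressions, and all the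
primes in `[m - B, m + B]` lie in the class of `m + c` modulo `w`, so that they are isolated (distances
at least `w`). By (1) the set `E` is not small: up to bounded errors it contains almost all members of any given
array.

The starting files contain: one exact pattern of primes with clusters near most members of every array
(`MP_3ec731_nt.MostRowsOfEveryArray`; there all shifts used belong to one pattern of primes, here all elements of
`E` can be combined independently of each other); free rows (`MP_6a20cc_nt.InfiniteArrays`, `n / 400` of `n` rows).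
In the hand-in `MP_8923e7_nt.FreePositions` (same author) free sets of positions have the proportion `5/18` of given
windows; here bounded errors give almost everything, and the other shifts are composite. The sibling theorems for
dilations and for iterates of affine maps are `MP_d018b2_nt.FreeMultiples` and `MP_77cbc6_nt.FreeTimes` (same
engine, other semigroups).

Proof. Fix an ultrafilter on the indices of the `x_j`. A set of shifts is free if for every word in its elements
the iterated limit of the statement (2) is true; translations preserve free sets. The coloured Maynard-Tao theorem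
with the constant `18/5`, all patterns, forced composite values and narrow progressions
(`Pool.Agent.Y827.HN.patR`, starting files) gives, for every weight on finitely many intervals the `t`-th of which
has the length `(t + 3)!`, a free set which meets intervals with `5/18` of the weight (take multiples of
`(t + 3)!`). If the theorem with one point and proportion `ρ < 1` were false for all `(C_j)`, configurations placed
inside each other (the idea is that of the starting library `Pool.Agent.N790.BP.Conf`; proved here for semigroups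
of substitutions) would give the proportion `ρ ^ n < 5/18`. Infinitely many measures: Pták's lemma on convex means
(`Pool.Agent.Helper639.Tk.ptak`, starting files) and limits of free sets.
-/

set_option autoImplicit false

namespace Pool.Agent.Results.MP_f686a1_nt.FreeClusters

open Filter Finset

/-- among the numbers `q (m + h_u) + r` exactly those with `u ∈ J` are prime, and no number `q (m + z) + r` with
`|z| ≤ B` and `z` not congruent to `c` modulo `w` is prime -/
def Pattern (q : ℕ) (r : ℤ) (w : ℕ) (c : ℤ) (B : ℕ) {k : ℕ} (h : Fin k → ℤ) (J : Finset (Fin k)) (m : ℕ) : Prop :=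
  (∀ u : Fin k, ((q : ℤ) * ((m : ℤ) + h u) + r).toNat.Prime ↔ u ∈ J) ∧
    ∀ z : ℤ, |z| ≤ B → ¬ (w : ℤ) ∣ z - c → ¬ ((q : ℤ) * ((m : ℤ) + z) + r).toNat.Prime

open Classical in
/-- the number of the `1 ≤ n ≤ N` such that all of `n, n + d, …, n + (l - 1) d` have the pattern -/
noncomputable def count (q : ℕ) (r : ℤ) (w : ℕ) (c : ℤ) (B : ℕ) {k : ℕ} (h : Fin k → ℤ) (J : Finset (Fin k))
    (l d N : ℕ) : ℕ :=
  ((Icc 1 N).filter (fun n : ℕ => ∀ i < l, Pattern q r w c B h J (n + i * d))).card

/-- all patterns occur, at arbitrarily large common scales `N`, for all the vectors of shifts in `𝓗` -/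
def AllGood (q : ℕ) (r : ℤ) (w : ℕ) (c : ℤ) {k : ℕ} (𝓗 : Set (Fin k → ℤ)) : Prop :=
  ∀ l B : ℕ, ∃ C : ℕ, ∃ᶠ N : ℕ in atTop, ∀ h ∈ 𝓗, ∀ J : Finset (Fin k),
    ∃ d : ℕ, 1 ≤ d ∧ (d : ℝ) ≤ (Real.log N) ^ C ∧
      (N : ℝ) / (Real.log N) ^ C ≤ (count q r w c B h J l d N : ℝ)

/-- the property `Q` holds for at least `(1 - ε) k` of the numbers `i < k` -/
def Most (ε : ℝ) (k : ℕ) (Q : ℕ → Prop) : Prop := ∃ R ⊆ range k, (1 - ε) * k ≤ (R.card : ℝ) ∧ ∀ i ∈ R, Q i

open Classical in
/-- **Free sets of shifts.** -/
theorem result (q : ℕ) (r : ℤ) (hq : 1 ≤ q) (hqr : IsCoprime r (q : ℤ)) (w : ℕ) (hw : 1 ≤ w) (c : ℤ)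
    (x : ℕ → ℤ) (hx : Function.Injective x) (hxw : ∀ j, (w : ℤ) ∣ x j - c)
    (ε : ℝ) (hε : 0 < ε) (hε1 : ε < 1) (k m : ℕ → ℕ) (hk : ∀ j, 1 ≤ k j) (hm : ∀ j, 1 ≤ m j) :
    ∃ C : ℕ → ℕ, ∀ (v : ℕ → ℕ → ℤ) (μ : ℕ → ℕ → ℝ) (T : ℕ → ℕ), (∀ t j, 0 ≤ μ t j) →
      (∀ t, ∑ j ∈ range (T t), μ t j = 1) →
      ∃ (E : Set ℤ) (J : ℕ → ℕ), (∀ s ∈ E, (w : ℤ) ∣ s) ∧ StrictMono J ∧
        (∃ᶠ t in atTop, 1 - ε ≤ ∑ j ∈ (range (T t)).filter (fun j => Most ε (k j) (fun i =>
          m j ≤ (E ∩ Set.Icc (v j i) (v j i + C j)).ncard)), μ t j) ∧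
        ∀ (n b : ℕ) (i : Fin n → ℕ), StrictMono i → (∀ t, n ≤ i t ∧ b ≤ i t) →
          AllGood q r w c {h : Fin n → ℤ | ∃ s : Fin n → ℤ, (∀ t, s t ∈ E ∧ |s t| ≤ b) ∧
            ∀ t, h t = x (J (i t)) + s t} := by
  obtain ⟨C, hC⟩ := Pool.Agent.U289.NX.tra q r hq hqr w hw c x hx hxw ε hε hε1 k m hk hm
  refine ⟨C, fun v μ T hμ hμ1 => ?_⟩
  obtain ⟨E, J, hE, hJ, h1, h2⟩ := hC v μ T hμ hμ1
  refine ⟨E, J, hE, hJ, h1.mono fun t ht => ht.trans (le_of_eq ?_), fun n b i hi hnb l B => ?_⟩
  · exact Pool.Agent.U289.NX.sum_ind (T t) (μ t) (fun j => Most ε (k j) (fun i =>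
      m j ≤ (E ∩ Set.Icc (v j i) (v j i + C j)).ncard))
  · obtain ⟨C', hC'⟩ := h2 n b i hi hnb l B
    refine ⟨C', hC'.mono fun N hN t ht J' => ?_⟩
    obtain ⟨d, hd1, hd2, hd3⟩ := hN t ht J'
    refine ⟨d, hd1, hd2, hd3.trans (le_of_eq ?_)⟩
    unfold Pool.Agent.U289.NX.startsW count
    exact congrArg Nat.cast (congrArg Finset.card (filter_congr fun x _ => Iff.rfl))

end Pool.Agent.Results.MP_f686a1_nt.FreeClusters
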