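import Pool.Agent.U308.TL.Tuples

/-!
# Prime tuples for all the multiples of all the integers near independent very smooth numbers

The sets `{0, h 1 * q 1, ..., h s * q s}` where `q i` is any integer near `c i + κ i * v i` and `1 ≤ h i ≤ log ^ J N`, for almost
all the vectors of `y i`-smooth integers `v i ≤ N` with `y i ≥ log ^ (1 + δ) N`.

From Mathlib: `Finset.Icc 1 N`: the integers from `1` to `N`; `Fintype.piFinset V`: the vectors `v` with `v i ∈ V i`.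

Method (helper308). For pairs of primes, one shift near a smooth number, there is a starting result
(`Pool.Agent.Results.MP_92ef0c_nt.SmoothDifferences`) for `y ≥ log ^ (2 + δ) N`. Below `log ^ 2 N` the exponential sum over
the integers composed of primes from `P` cannot be bounded in the same way. New here is a weight `w(v)`, the number of the
representations `v = m₁ m₂ u`, where `m₁` and `m₂` are products of `h` different primes from one dyadic class of `P` with more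
elements than the square root of the primes, and `u` is composed of primes from `P`: the weighted exponential sum is small
except near few rational numbers with small denominators (`Pool.Agent.U308.SH.chain`, `Pool.Agent.U308.SH.bilin`,
`Pool.Agent.U308.SG.exp_rr`), and `w(v)` is at least `1 / log N` of its mean value for almost all `v`
(`Pool.Agent.U308.SG.structB`, `Pool.Agent.U308.SG.dom2`, `Pool.Agent.U308.TL.dom_pt`). The passage from such a description of the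
large frequencies to prime tuples is from the starting files (`Pool.Agent.Y885.tl_tuples`).
-/

set_option autoImplicit false

namespace Pool.Agent.Results.MP_f686a1_nt.VerySmoothMultiples

open Finset

/-- The set `{0, a 1, ..., a s}` is admissible: for every prime `p` some class modulo `p` contains none of its elements. -/
def Admissible {s : ℕ} (a : Fin s → ℕ) : Prop :=
  ∀ p : ℕ, p.Prime → ∃ c : ℕ, ¬ 0 ≡ c [MOD p] ∧ ∀ i, ¬ a i ≡ c [MOD p]

/-- the number of the `n ≤ x` for which `n` and all the numbers `n + a i` are primes -/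
def count {s : ℕ} (a : Fin s → ℕ) (x : ℕ) : ℕ := ((Icc 1 x).filter (fun n : ℕ => n.Prime ∧ ∀ i, (n + a i).Prime)).card

/-- the number of the classes `r` modulo `p` for which `p` divides one of the numbers `r`, `r + a i` -/
def nu {s : ℕ} (a : Fin s → ℕ) (p : ℕ) : ℕ := ((range p).filter (fun r => p ∣ r ∨ ∃ i, p ∣ r + a i)).card

/-- the product over the primes `p ≤ z` which occurs in the singular series -/
noncomputable def sing {s : ℕ} (a : Fin s → ℕ) (z : ℕ) : ℝ :=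
  ∏ p ∈ (Icc 1 z).filter Nat.Prime, (1 - (nu a p : ℝ) / p) / (1 - 1 / (p : ℝ)) ^ (s + 1)

/-- The singular series converges, and if `{0, a 1, ..., a s}` is admissible then its value `S` is positive and for all the
integers `x` with `X₁ ≤ x ≤ X₂` the number of the `n ≤ x` for which `n` and all the `n + a i` are primes is
`S x / log ^ (s + 1) x` up to a relative error of at most `ε`. -/
def HardyLittlewood {s : ℕ} (ε X₁ X₂ : ℝ) (a : Fin s → ℕ) : Prop :=
  ∃ S : ℝ, Filter.Tendsto (fun z => sing a z) Filter.atTop (nhds S) ∧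
    (Admissible a → 0 < S ∧ ∀ x : ℕ, X₁ ≤ x → (x : ℝ) ≤ X₂ →
      |(count a x : ℝ) - S * (x / Real.log x ^ (s + 1))| ≤ ε * (S * (x / Real.log x ^ (s + 1))))

/-- The integers `1 ≤ v ≤ N` all of whose prime factors belong to `P`. -/
def composedOf (P : Finset ℕ) (N : ℕ) : Finset ℕ := (Icc 1 N).filter fun v => v.primeFactors ⊆ P

/-- The `y`-smooth integers `1 ≤ v ≤ N`: the integers all of whose prime factors are at most `y`. -/
def smooth (y N : ℕ) : Finset ℕ := (Icc 1 N).filter fun v => ∀ p ∈ v.primeFactors, p ≤ y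

/-- `V` is, for some `y ≤ log ^ K N`, the set of the integers `v ≤ N` composed of primes from a set `P` of primes `≤ y`
with at least `y ^ (1 / 2 + δ)` and at least `log ^ (1 + δ) N` elements, or the set of the `y`-smooth integers `v ≤ N` with
`y ≥ log ^ (1 + δ) N`. -/
def Family (δ : ℝ) (K N : ℕ) (V : Finset ℕ) : Prop :=
  ∃ y : ℕ, (y : ℝ) ≤ Real.log N ^ K ∧
    ((∃ P : Finset ℕ, (∀ p ∈ P, p.Prime ∧ p ≤ y) ∧ (y : ℝ) ^ (1 / 2 + δ) ≤ P.card ∧ Real.log N ^ (1 + δ) ≤ P.card ∧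
        V = composedOf P N) ∨
      (Real.log N ^ (1 + δ) ≤ y ∧ V = smooth y N))

lemma sing_eq {s : ℕ} (a : Fin s → ℕ) (z : ℕ) : Pool.Agent.H373R2.T7.singZ (fun i => (a i : ℤ)) z = sing a z := by
  unfold Pool.Agent.H373R2.T7.singZ sing
  apply prod_congr rfl
  intro p _
  have : Pool.Agent.H373R2.T7.nuP (fun i => (a i : ℤ)) p = nu a p := by
    unfold Pool.Agent.H373R2.T7.nuP nu
    congr 1
    apply filter_congr
    intro r _
    constructor
    · rintro (h | ⟨i, h⟩)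
      · exact Or.inl h
      · refine Or.inr ⟨i, ?_⟩
        simp only at h
        exact_mod_cast h
    · rintro (h | ⟨i, h⟩)
      · exact Or.inl h
      · refine Or.inr ⟨i, ?_⟩
        simp only
        exact_mod_cast h
  rw [this]

lemma adm_of {s : ℕ} (a : Fin s → ℕ) (h : Admissible a) : Pool.Agent.H373R2.T7.Admissible (fun i => (a i : ℤ)) := by
  intro p hp
  obtain ⟨c, h1, h2⟩ := h p hp
  refine ⟨-(c : ℤ), ?_, fun i => ?_⟩
  · intro h3
    apply h1
    rw [Int.dvd_neg] at h3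
    have h4 : p ∣ c := by exact_mod_cast h3
    exact ((Nat.modEq_zero_iff_dvd).2 h4).symm
  · intro h3
    apply h2 i
    apply Nat.ModEq.symm
    rw [Nat.modEq_iff_dvd]
    have e : ((a i : ℕ) : ℤ) - (c : ℤ) = -(c : ℤ) + a i := by ring
    rw [e]
    exact h3

/-- `Family` in terms of the sets of the library -/
lemma fam_of (δ : ℝ) (hδ : 0 < δ) (K : ℕ) : ∃ (δ' : ℝ) (N₀ : ℕ), 0 < δ' ∧ ∀ N, N₀ ≤ N → ∀ V, Family δ K N V →
    ∃ P y, Pool.Agent.U308.TL.Cond2 δ' K N P y ∧ V = Pool.Agent.N469.SM.SS P N := by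
  obtain ⟨δ', N₁, hδ', h1⟩ := Pool.Agent.U308.SG.PR_cond2 δ hδ
  obtain ⟨N₂, h2⟩ := Pool.Agent.H373R2.T7.ev_L' 1
  refine ⟨min δ δ', N₁ + N₂ + 2, lt_min hδ hδ', fun N hN V hV => ?_⟩
  have hL := h2 N (by omega)
  obtain ⟨y, hy, ⟨P, hP, hP1, hP2, rfl⟩ | ⟨hy1, rfl⟩⟩ := hV
  · have hPne : (1 : ℝ) ≤ P.card := le_trans (Real.one_le_rpow hL (by linarith)) hP2
    have hy1 : (1 : ℝ) ≤ y := by
      have h3 : 0 < P.card := by exact_mod_cast (by linarith : (0 : ℝ) < P.card)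
      obtain ⟨p, hp⟩ := card_pos.1 h3
      have h4 := (hP p hp).1.two_le
      have h5 := (hP p hp).2
      exact_mod_cast (by omega : 1 ≤ y)
    refine ⟨P, y, ⟨hP, hy, le_trans ?_ hP1, le_trans ?_ hP2⟩, rfl⟩
    · exact Real.rpow_le_rpow_of_exponent_le hy1 (by linarith [min_le_left δ δ'])
    · exact Real.rpow_le_rpow_of_exponent_le hL (by linarith [min_le_left δ δ'])
  · obtain ⟨g1, g2, g3⟩ := h1 N (by omega) y hy1
    have hy2 : (1 : ℝ) ≤ y := le_trans (Real.one_le_rpow hL (by linarith)) hy1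
    refine ⟨Pool.Agent.N469.SQ.PR y, y, ⟨fun p hp => Pool.Agent.N469.SQ.mem_PR.1 hp, hy, le_trans ?_ g2, le_trans ?_ g3⟩, ?_⟩
    · exact Real.rpow_le_rpow_of_exponent_le hy2 (by linarith [min_le_right δ δ'])
    · exact Real.rpow_le_rpow_of_exponent_le hL (by linarith [min_le_right δ δ'])
    · exact Pool.Agent.U308.SG.smooth_eq y N

/-- interpolation -/
lemma interp (s : ℕ) (ε : ℝ) (hε : 0 < ε) (hε1 : ε ≤ 1) (a : Fin s → ℕ) (S : ℝ) (hS : 0 < S) (D j x : ℕ) (hj : 4 / ε ≤ j)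
    (hD : 3 ≤ j * D) (h1 : j * D ≤ x) (h2 : x ≤ (j + 1) * D)
    (g1 : |(count a (j * D) : ℝ) - S * (((j * D : ℕ) : ℝ) / Real.log ((j * D : ℕ) : ℝ) ^ (s + 1))| ≤
      ε / 4 * (S * (((j * D : ℕ) : ℝ) / Real.log ((j * D : ℕ) : ℝ) ^ (s + 1))))
    (g2 : |(count a ((j + 1) * D) : ℝ) - S * ((((j + 1) * D : ℕ) : ℝ) / Real.log (((j + 1) * D : ℕ) : ℝ) ^ (s + 1))| ≤
      ε / 4 * (S * ((((j + 1) * D : ℕ) : ℝ) / Real.log (((j + 1) * D : ℕ) : ℝ) ^ (s + 1)))) :
    |(count a x : ℝ) - S * (x / Real.log x ^ (s + 1))| ≤ ε * (S * (x / Real.log x ^ (s + 1))) := by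
  have hmono : ∀ u v : ℕ, u ≤ v → (count a u : ℝ) ≤ count a v := by
    intro u v huv
    unfold count
    have : (Icc 1 u).filter (fun n : ℕ => n.Prime ∧ ∀ i, (n + a i).Prime) ⊆ (Icc 1 v).filter (fun n : ℕ => n.Prime ∧ ∀ i, (n + a i).Prime) :=
      filter_subset_filter _ (Icc_subset_Icc_right huv)
    exact_mod_cast card_le_card this
  have hj0 : (0 : ℝ) < j := lt_of_lt_of_le (by positivity) hj
  have hx3 : (3 : ℝ) ≤ x := by exact_mod_cast (by omega : 3 ≤ x)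
  have hlx : 0 < Real.log (x : ℝ) := Real.log_pos (by linarith)
  have hA3 : (3 : ℝ) ≤ ((j * D : ℕ) : ℝ) := by exact_mod_cast hD
  have hB3 : (3 : ℝ) ≤ (((j + 1) * D : ℕ) : ℝ) := by exact_mod_cast (by omega : 3 ≤ (j + 1) * D)
  have hlA : 0 < Real.log ((j * D : ℕ) : ℝ) := Real.log_pos (by linarith)
  have hlB : 0 < Real.log (((j + 1) * D : ℕ) : ℝ) := Real.log_pos (by linarith)
  have hAx : ((j * D : ℕ) : ℝ) ≤ x := by exact_mod_cast h1
  have hxB : (x : ℝ) ≤ (((j + 1) * D : ℕ) : ℝ) := by exact_mod_cast h2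
  have hAB : (((j + 1) * D : ℕ) : ℝ) ≤ (1 + ε / 4) * ((j * D : ℕ) : ℝ) := by
    push_cast
    have e1 : 1 ≤ ε / 4 * j := by
      have := mul_le_mul_of_nonneg_left hj (by positivity : 0 ≤ ε / 4)
      calc (1 : ℝ) = ε / 4 * (4 / ε) := by field_simp
        _ ≤ _ := this
    have hD0 : (0 : ℝ) ≤ D := Nat.cast_nonneg _
    nlinarith
  obtain ⟨F, hF⟩ : ∃ F : ℝ, F = S * (x / Real.log x ^ (s + 1)) := ⟨_, rfl⟩
  rw [← hF]
  have hF0 : 0 < F := by rw [hF]; positivity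
  -- lower bound
  have e1 : (1 - ε / 4) * F ≤ S * (((j * D : ℕ) : ℝ) / Real.log ((j * D : ℕ) : ℝ) ^ (s + 1)) := by
    have a1 : (1 - ε / 4) * (x : ℝ) ≤ ((j * D : ℕ) : ℝ) := by
      have a2 : (x : ℝ) ≤ (1 + ε / 4) * ((j * D : ℕ) : ℝ) := hxB.trans hAB
      nlinarith
    have a3 : Real.log ((j * D : ℕ) : ℝ) ^ (s + 1) ≤ Real.log x ^ (s + 1) :=
      pow_le_pow_left₀ hlA.le (Real.log_le_log (by linarith) hAx) _
    calc (1 - ε / 4) * F = S * (((1 - ε / 4) * (x : ℝ)) / Real.log x ^ (s + 1)) := by rw [hF]; ring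
      _ ≤ S * (((j * D : ℕ) : ℝ) / Real.log x ^ (s + 1)) := by gcongr
      _ ≤ _ := by
          apply mul_le_mul_of_nonneg_left _ hS.le
          apply div_le_div_of_nonneg_left (by linarith) (by positivity) a3
  have e2 : S * ((((j + 1) * D : ℕ) : ℝ) / Real.log (((j + 1) * D : ℕ) : ℝ) ^ (s + 1)) ≤ (1 + ε / 4) * F := by
    have a1 : (((j + 1) * D : ℕ) : ℝ) ≤ (1 + ε / 4) * x := hAB.trans (mul_le_mul_of_nonneg_left hAx (by linarith))
    have a3 : Real.log x ^ (s + 1) ≤ Real.log (((j + 1) * D : ℕ) : ℝ) ^ (s + 1) :=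
      pow_le_pow_left₀ hlx.le (Real.log_le_log (by linarith) hxB) _
    calc S * ((((j + 1) * D : ℕ) : ℝ) / Real.log (((j + 1) * D : ℕ) : ℝ) ^ (s + 1))
        ≤ S * ((((j + 1) * D : ℕ) : ℝ) / Real.log x ^ (s + 1)) := by
          apply mul_le_mul_of_nonneg_left _ hS.le
          apply div_le_div_of_nonneg_left (by linarith) (by positivity) a3
      _ ≤ S * (((1 + ε / 4) * x) / Real.log x ^ (s + 1)) := by gcongr
      _ = (1 + ε / 4) * F := by rw [hF]; ring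
  obtain ⟨u1, u2⟩ := abs_le.1 g1
  obtain ⟨v1, v2⟩ := abs_le.1 g2
  have m1 := hmono _ _ h1
  have m2 := hmono _ _ h2
  obtain ⟨FA, hFA⟩ : ∃ FA, FA = S * (((j * D : ℕ) : ℝ) / Real.log ((j * D : ℕ) : ℝ) ^ (s + 1)) := ⟨_, rfl⟩
  obtain ⟨FB, hFB⟩ : ∃ FB, FB = S * ((((j + 1) * D : ℕ) : ℝ) / Real.log (((j + 1) * D : ℕ) : ℝ) ^ (s + 1)) := ⟨_, rfl⟩
  rw [← hFA] at u1 u2 e1
  rw [← hFB] at v1 v2 e2
  rw [abs_le]
  constructor
  · nlinarith
  · nlinarith

lemma k_facts (N k : ℕ) (hk : k = Nat.log 2 N + 1) (hk12 : 12 ≤ k) (hN : N ≠ 0) : N ≤ 2 * k * (N / k) ∧ k * (N / k) ≤ N ∧ 2 ≤ N / k := by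
  obtain ⟨m, hm⟩ : ∃ m, m = Nat.log 2 N := ⟨_, rfl⟩
  rw [← hm] at hk
  have h1 : 2 ^ m ≤ N := by rw [hm]; exact Nat.pow_log_le_self 2 hN
  have h2 : m - 2 < 2 ^ (m - 2) := Nat.lt_two_pow_self
  have h3 : 2 ^ m = 4 * 2 ^ (m - 2) := by
    rw [show (4 : ℕ) = 2 ^ 2 by norm_num, ← pow_add]
    congr 1
    omega
  have h4 : 2 * k ≤ N := by omega
  have h5 : 2 ≤ N / k := by
    rw [Nat.le_div_iff_mul_le (by omega)]
    exact h4
  have h6 := Nat.div_add_mod N k
  have h7 := Nat.mod_lt N (show 0 < k by omega)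
  have h8 : k * 2 ≤ k * (N / k) := Nat.mul_le_mul_left _ h5
  refine ⟨?_, Nat.mul_div_le N k, h5⟩
  rw [mul_assoc]
  omega

open Classical in
/-- **Prime tuples for all the multiples of all the integers near very smooth numbers.** Let `s ≥ 1`, the integers `κ i ≠ 0`
(`i < s`), `B`, `J`, `T`, `W`, `U`, `K`, `0 < ε ≤ 1` and `δ > 0` be fixed, let `N` be large, and for each `i < s` let `V i` be a
family as in `Family`: the integers `v ≤ N` composed of primes from a set `P` of primes `≤ y` with at least `y ^ (1 / 2 + δ)` and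
at least `log ^ (1 + δ) N` elements, `y ≤ log ^ K N`, or the `y`-smooth integers `v ≤ N`, `log ^ (1 + δ) N ≤ y ≤ log ^ K N`.
(There can be fewer than `N ^ δ` elements in `V i`.) Let `c i` be arbitrary integers with `|c i| ≤ B N`.

Then for all the vectors `(v 1, ..., v s)` with `v i ∈ V i`, with the exception of a proportion of at most `1 / log ^ U N` of
these vectors, the following holds for ALL the integers `q i ≥ 0` at a distance of at most `log ^ W N` from `c i + κ i * v i`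
and ALL the factors `1 ≤ h i ≤ log ^ J N`: the singular series of the set `{0, h 1 * q 1, ..., h s * q s}` converges, and if this
set is admissible then its value `S` is positive and, for ALL the integers `x` with
`(B + ∑ |κ i| + 2) N log ^ J N ≤ x ≤ N log ^ T N`, the number of the `n ≤ x` for which `n` and all the numbers `n + h i * q i`
are primes is `S x / log ^ (s + 1) x` up to a relative error of at most `ε`. (So there is such an `n ≤ x`.) -/
theorem result (s : ℕ) (hs : 1 ≤ s) (κ : Fin s → ℤ) (hκ : ∀ i, κ i ≠ 0) (B J T W U K : ℕ) (ε : ℝ) (hε : 0 < ε) (hε1 : ε ≤ 1)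
    (δ : ℝ) (hδ : 0 < δ) : ∃ N₀ : ℕ, ∀ N, N₀ ≤ N → ∀ V : Fin s → Finset ℕ, (∀ i, Family δ K N (V i)) →
    ∀ c : Fin s → ℤ, (∀ i, |c i| ≤ B * N) →
    (((Fintype.piFinset V).filter fun v => ¬ ∀ h q : Fin s → ℕ, (∀ i, 1 ≤ h i ∧ (h i : ℝ) ≤ Real.log N ^ J) →
      (∀ i, |((q i - (c i + κ i * v i) : ℤ) : ℝ)| ≤ Real.log N ^ W) →
      HardyLittlewood ε (((B + ∑ i, (κ i).natAbs + 2 : ℕ) : ℝ) * (N * Real.log N ^ J)) (N * Real.log N ^ T)
        (fun i => h i * q i)).card : ℝ) ≤ ((Fintype.piFinset V).card : ℝ) / Real.log N ^ U := by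
  obtain ⟨δ', N₁, hδ', h1⟩ := fam_of δ hδ K
  obtain ⟨U', hU'⟩ : ∃ U', U' = U + (J + T + 3) := ⟨_, rfl⟩
  obtain ⟨N₂, h2⟩ := Pool.Agent.U308.TL.sm_tuples2 s hs δ' hδ' κ hκ K B J (J + T + 1) W U' (ε / 4) (by positivity)
  obtain ⟨C', hC'⟩ : ∃ C', C' = B + ∑ i, (κ i).natAbs + 1 := ⟨_, rfl⟩
  have hC2 : B + ∑ i, (κ i).natAbs + 2 = C' + 1 := by omega
  rw [hC2]
  rw [← hC'] at h2
  obtain ⟨N₃, h3⟩ := Pool.Agent.H373R2.T7.ev_L' ((3 : ℝ) ^ (J + T + 3) + 4 / ε + C' + 12)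
  refine ⟨N₁ + N₂ + N₃ + 2, fun N hN V hV c hc => ?_⟩
  have hL3 := h3 N (by omega)
  obtain ⟨L, hL⟩ : ∃ L, L = Real.log (N : ℝ) := ⟨_, rfl⟩
  have hC0 : (0 : ℝ) ≤ C' := Nat.cast_nonneg _
  have h30 : (0 : ℝ) < 3 ^ (J + T + 3) := by positivity
  have hε4 : 0 < 4 / ε := by positivity
  obtain ⟨d1, d2⟩ := Pool.Agent.N469.TL.log_digits N (by omega)
  obtain ⟨k, hk⟩ : ∃ k, k = Nat.log 2 N + 1 := ⟨_, rfl⟩
  rw [← hk, ← hL] at d1 d2
  rw [← hL] at hL3
  have h2N := h2 N (by omega)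
  rw [← hL] at h2N ⊢
  have hL12 : 12 ≤ L := by linarith
  have hL1 : 1 ≤ L := by linarith
  have hL0 : 0 < L := by linarith
  have hkr : (12 : ℝ) ≤ k := by linarith
  have hk12 : 12 ≤ k := by exact_mod_cast hkr
  have hN0 : (0 : ℝ) < N := by exact_mod_cast (by omega : 0 < N)
  obtain ⟨f1, f2, f3⟩ := k_facts N k hk hk12 (by omega)
  obtain ⟨D, hD⟩ : ∃ D, D = N / k := ⟨_, rfl⟩
  rw [← hD] at f1 f2 f3
  have f1r : (N : ℝ) ≤ 2 * k * D := by exact_mod_cast f1
  have f2r : (k : ℝ) * D ≤ N := by exact_mod_cast f2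
  have f3r : (2 : ℝ) ≤ D := by exact_mod_cast f3
  have hD0 : (0 : ℝ) < D := by linarith
  have hLJ : 1 ≤ L ^ J := one_le_pow₀ hL1
  have hDN : (D : ℝ) ≤ N := by nlinarith
  have hNL : (N : ℝ) ≤ N * L ^ J := le_mul_of_one_le_right hN0.le hLJ
  choose P y hP hVP using fun i => h1 N (by omega) (V i) (hV i)
  have hVeq : V = fun i => Pool.Agent.N469.SM.SS (P i) N := funext hVP
  obtain ⟨G, hG⟩ : ∃ G : Finset ℕ, G = (range (2 * k ^ (J + T + 2) + 1)).filter
    (fun j => (C' : ℝ) * (N * L ^ J) ≤ ((j * D : ℕ) : ℝ) ∧ ((j * D : ℕ) : ℝ) ≤ N * L ^ (J + T + 1)) := ⟨_, rfl⟩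
  have hgrid : ∀ x : ℕ, ((C' + 1 : ℕ) : ℝ) * (N * L ^ J) ≤ x → (x : ℝ) + N ≤ N * L ^ (J + T + 1) →
      x / D ∈ G ∧ (x / D + 1) ∈ G ∧ (x / D) * D ≤ x ∧ x ≤ (x / D + 1) * D ∧ 4 / ε ≤ ((x / D : ℕ) : ℝ) ∧ 3 ≤ (x / D) * D := by
    intro x hx1 hx2
    obtain ⟨j, hj⟩ : ∃ j, j = x / D := ⟨_, rfl⟩
    have g1 : j * D ≤ x := by rw [hj]; exact Nat.div_mul_le_self x D
    have g2 : x < (j + 1) * D := by
      rw [hj, add_mul, one_mul]
      have e1 := Nat.div_add_mod x D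
      have e2 := Nat.mod_lt x (show 0 < D by omega)
      rw [mul_comm] at e1
      omega
    rw [← hj]
    have g1r : ((j * D : ℕ) : ℝ) ≤ x := by exact_mod_cast g1
    have g2r : (x : ℝ) ≤ ((j * D : ℕ) : ℝ) + D := by
      have : (x : ℝ) < (((j + 1) * D : ℕ) : ℝ) := by exact_mod_cast g2
      push_cast at this ⊢
      linarith
    have g3 : (C' : ℝ) * (N * L ^ J) ≤ ((j * D : ℕ) : ℝ) := by
      push_cast at hx1 g2r ⊢
      linarith
    have g4 : (((j + 1) * D : ℕ) : ℝ) ≤ N * L ^ (J + T + 1) := by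
      push_cast at g1r ⊢
      linarith
    have g5 : ((j * D : ℕ) : ℝ) ≤ N * L ^ (J + T + 1) := by
      push_cast at g4 ⊢
      linarith
    have g6 : (N : ℝ) ≤ ((j * D : ℕ) : ℝ) := by
      refine le_trans ?_ g3
      have : (1 : ℝ) ≤ C' := by rw [hC']; exact_mod_cast (by omega : 1 ≤ B + ∑ i, (κ i).natAbs + 1)
      nlinarith
    have g7 : (k : ℝ) ≤ j := by
      have : (k : ℝ) * D ≤ j * D := by
        push_cast at g6
        linarith
      exact le_of_mul_le_mul_right this hD0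
    have g8 : ((j + 1 : ℕ) : ℝ) ≤ ((2 * k ^ (J + T + 2) : ℕ) : ℝ) := by
      have e1 : ((j + 1 : ℕ) : ℝ) * D ≤ (2 * (k : ℝ) ^ (J + T + 2)) * D := by
        calc ((j + 1 : ℕ) : ℝ) * D = (((j + 1) * D : ℕ) : ℝ) := by push_cast; ring
          _ ≤ N * L ^ (J + T + 1) := g4
          _ ≤ (2 * k * D) * (k : ℝ) ^ (J + T + 1) := by gcongr
          _ = _ := by ring
      have e2 := le_of_mul_le_mul_right e1 hD0
      push_cast at e2 ⊢
      exact e2
    have g8n : j + 1 ≤ 2 * k ^ (J + T + 2) := by exact_mod_cast g8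
    refine ⟨?_, ?_, g1, g2.le, ?_, ?_⟩
    · rw [hG, mem_filter, mem_range]
      exact ⟨by omega, g3, g5⟩
    · rw [hG, mem_filter, mem_range]
      refine ⟨by omega, g3.trans ?_, g4⟩
      push_cast
      linarith
    · linarith
    · have e1 : 12 ≤ j := by
        have : (12 : ℝ) ≤ j := hkr.trans g7
        exact_mod_cast this
      calc 3 ≤ 12 * 1 := by norm_num
        _ ≤ j * D := Nat.mul_le_mul e1 (by omega)
  -- the exceptional vectors
  have hsub : ((Fintype.piFinset V).filter fun v => ¬ ∀ h q : Fin s → ℕ, (∀ i, 1 ≤ h i ∧ (h i : ℝ) ≤ L ^ J) →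
      (∀ i, |((q i - (c i + κ i * v i) : ℤ) : ℝ)| ≤ L ^ W) →
      HardyLittlewood ε (((C' + 1 : ℕ) : ℝ) * (N * L ^ J)) (N * L ^ T) (fun i => h i * q i)) ⊆
      G.biUnion fun j => (Fintype.piFinset V).filter fun v => ¬ ∀ h q : Fin s → ℕ, (∀ i, 1 ≤ h i ∧ (h i : ℝ) ≤ L ^ J) →
        (∀ i, |((q i - (c i + κ i * v i) : ℤ) : ℝ)| ≤ L ^ W) → Pool.Agent.W93.TD.HLs (ε / 4) U' (j * D) (fun i => h i * q i) := by
    intro v hv
    rw [mem_filter] at hv
    obtain ⟨hv1, hv2⟩ := hv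
    rw [mem_biUnion]
    by_contra hcon
    apply hv2
    intro h q hh hq
    have hgood : ∀ j ∈ G, Pool.Agent.W93.TD.HLs (ε / 4) U' (j * D) (fun i => h i * q i) := by
      intro j hj
      by_contra hb
      exact hcon ⟨j, hj, mem_filter.2 ⟨hv1, fun hall => hb (hall h q hh hq)⟩⟩
    -- one scale
    obtain ⟨x₀, hx₀⟩ : ∃ x₀ : ℕ, x₀ = ⌈((C' + 1 : ℕ) : ℝ) * (N * L ^ J)⌉₊ := ⟨_, rfl⟩
    have hx1 : ((C' + 1 : ℕ) : ℝ) * (N * L ^ J) ≤ x₀ := by rw [hx₀]; exact Nat.le_ceil _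
    have hx2 : (x₀ : ℝ) < ((C' + 1 : ℕ) : ℝ) * (N * L ^ J) + 1 := by rw [hx₀]; exact Nat.ceil_lt_add_one (by positivity)
    have hx3 : (x₀ : ℝ) + N ≤ N * L ^ (J + T + 1) := by
      have e1 : (N * L ^ J) * L ≤ N * L ^ (J + T + 1) := by
        rw [mul_assoc, ← pow_succ]
        apply mul_le_mul_of_nonneg_left _ hN0.le
        exact pow_le_pow_right₀ hL1 (by omega)
      have e2 : ((C' + 1 : ℕ) : ℝ) + 2 ≤ L := by
        push_cast
        linarith
      have e3 : (((C' + 1 : ℕ) : ℝ) + 2) * (N * L ^ J) ≤ L * (N * L ^ J) := mul_le_mul_of_nonneg_right e2 (by positivity)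
      have e4 : (1 : ℝ) ≤ N := by linarith
      linarith
    obtain ⟨S, hS1, -, hS3⟩ := hgood _ (hgrid x₀ hx1 hx3).1
    refine ⟨S, ?_, fun hadm => ?_⟩
    · simp only [sing_eq] at hS1
      exact hS1
    · obtain ⟨hS0, -⟩ := hS3 (adm_of _ hadm)
      refine ⟨hS0, fun x hxa hxb => ?_⟩
      obtain ⟨r1, r2, r3, r4, r5, r6⟩ := hgrid x hxa (by
        have e1 : (N : ℝ) * L ^ T * L ≤ N * L ^ (J + T + 1) := by
          rw [mul_assoc, ← pow_succ]
          apply mul_le_mul_of_nonneg_left _ hN0.le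
          exact pow_le_pow_right₀ hL1 (by omega)
        have e2 : (1 : ℝ) ≤ L ^ T := one_le_pow₀ hL1
        have e3 : (N : ℝ) ≤ N * L ^ T := le_mul_of_one_le_right hN0.le e2
        nlinarith)
      obtain ⟨Sa, ha1, -, ha3⟩ := hgood _ r1
      obtain ⟨Sb, hb1, -, hb3⟩ := hgood _ r2
      have ea : Sa = S := tendsto_nhds_unique ha1 hS1
      have eb : Sb = S := tendsto_nhds_unique hb1 hS1
      subst ea
      rw [eb] at hb3
      exact interp s ε hε hε1 _ _ hS0 D (x / D) x r5 r6 r3 r4 (ha3 (adm_of _ hadm)).2 (hb3 (adm_of _ hadm)).2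
  have hbad : ∀ j ∈ G, (((Fintype.piFinset V).filter fun v => ¬ ∀ h q : Fin s → ℕ, (∀ i, 1 ≤ h i ∧ (h i : ℝ) ≤ L ^ J) →
        (∀ i, |((q i - (c i + κ i * v i) : ℤ) : ℝ)| ≤ L ^ W) →
        Pool.Agent.W93.TD.HLs (ε / 4) U' (j * D) (fun i => h i * q i)).card : ℝ) ≤ ((Fintype.piFinset V).card : ℝ) / L ^ U' := by
    intro j hj
    rw [hG, mem_filter] at hj
    rw [hVeq]
    exact h2N P y hP c hc (j * D) hj.2.1 hj.2.2
  have h5 : ((((Fintype.piFinset V).filter fun v => ¬ ∀ h q : Fin s → ℕ, (∀ i, 1 ≤ h i ∧ (h i : ℝ) ≤ L ^ J) →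
      (∀ i, |((q i - (c i + κ i * v i) : ℤ) : ℝ)| ≤ L ^ W) →
      HardyLittlewood ε (((C' + 1 : ℕ) : ℝ) * (N * L ^ J)) (N * L ^ T) (fun i => h i * q i)).card : ℕ) : ℝ) ≤
      ∑ j ∈ G, (((Fintype.piFinset V).filter fun v => ¬ ∀ h q : Fin s → ℕ, (∀ i, 1 ≤ h i ∧ (h i : ℝ) ≤ L ^ J) →
        (∀ i, |((q i - (c i + κ i * v i) : ℤ) : ℝ)| ≤ L ^ W) → Pool.Agent.W93.TD.HLs (ε / 4) U' (j * D) (fun i => h i * q i)).card : ℝ) := by
    exact_mod_cast (card_le_card hsub).trans card_biUnion_le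
  refine h5.trans ((sum_le_card_nsmul _ _ _ hbad).trans ?_)
  rw [nsmul_eq_mul]
  have hGc : (G.card : ℝ) ≤ L ^ (J + T + 3) := by
    have e1 : G.card ≤ 2 * k ^ (J + T + 2) + 1 := by
      rw [hG]
      exact (card_filter_le _ _).trans (by rw [card_range])
    have e2 : (G.card : ℝ) ≤ 2 * (k : ℝ) ^ (J + T + 2) + 1 := by exact_mod_cast e1
    have e3 : (1 : ℝ) ≤ (k : ℝ) ^ (J + T + 2) := one_le_pow₀ (by linarith)
    calc (G.card : ℝ) ≤ 3 * (k : ℝ) ^ (J + T + 2) := by linarith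
      _ ≤ 3 * (3 * L) ^ (J + T + 2) := by gcongr
      _ = 3 ^ (J + T + 3) * L ^ (J + T + 2) := by rw [mul_pow]; ring
      _ ≤ L * L ^ (J + T + 2) := mul_le_mul_of_nonneg_right (by linarith) (by positivity)
      _ = L ^ (J + T + 3) := by ring
  have h6 : (0 : ℝ) ≤ ((Fintype.piFinset V).card : ℝ) := Nat.cast_nonneg _
  calc (G.card : ℝ) * (((Fintype.piFinset V).card : ℝ) / L ^ U') ≤ L ^ (J + T + 3) * (((Fintype.piFinset V).card : ℝ) / L ^ U') :=
        mul_le_mul_of_nonneg_right hGc (by positivity)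
    _ = ((Fintype.piFinset V).card : ℝ) / L ^ U := by
        rw [hU', pow_add L U]
        field_simp

end Pool.Agent.Results.MP_f686a1_nt.VerySmoothMultiples
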