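import Pool.Agent.U847.WT
import Pool.Agent.N625.PT.I

/-!
# Prime tuples for all the multiples of all the integers near integers whose digits label walks in infinite graphs

The sets `{0, h 1 * q 1, ..., h s * q s}` where `q i` is any integer near `c i + κ i * v i` and `1 ≤ h i ≤ k ^ J`, for almost all
the vectors of integers `v i` whose `k` digits are the labels of the walks between two vertices of a graph, for example of
the Cayley graph of a group: then these are the integers whose digits spell a given element of the group. Such a set can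
contain as few as `N ^ ε` integers below `N`, and in general it is not automatic.

From Mathlib: `Finset.Icc 1 N`: the integers from `1` to `N`; `Fintype.piFinset S`: the vectors `v` with `v i ∈ S i`.

Method: the exponential sum over the walks is dominated by the iterates of the adjacency operator of the graph, which
loses a constant factor at every digit where the frequency is not extremal (starting files, `Pool.Agent.N625.GW`). New
here: a frequency `θ` at which the exponential sum over the multiples `h v` is large differs little from a fraction with a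
small denominator except at `O(log k)` of the digits, for all `h ≤ k ^ J` (`Pool.Agent.U847.TG`, `Pool.Agent.U847.TI`). The
passage from such a description of the large frequencies to prime tuples is from the starting files
(`Pool.Agent.N625.PT.t_tuples`).
-/

set_option autoImplicit false

namespace Pool.Agent.Results.MP_f686a1_nt.WalkMultiples

open Finset

/-- The set `{0, a 1, ..., a s}` is admissible: for every prime `p` some class modulo `p` contains none of its elements. -/
def Admissible {s : ℕ} (a : Fin s → ℕ) : Prop :=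
  ∀ p : ℕ, p.Prime → ∃ c : ℕ, ¬ 0 ≡ c [MOD p] ∧ ∀ i, ¬ a i ≡ c [MOD p]

/-- the number of the `n ≤ N` for which `n` and all the numbers `n + a i` are primes -/
def count {s : ℕ} (a : Fin s → ℕ) (N : ℕ) : ℕ := ((Icc 1 N).filter (fun n : ℕ => n.Prime ∧ ∀ i, (n + a i).Prime)).card

/-- the number of the classes `r` modulo `p` for which `p` divides one of the numbers `r`, `r + a i` -/
def nu {s : ℕ} (a : Fin s → ℕ) (p : ℕ) : ℕ := ((range p).filter (fun r => p ∣ r ∨ ∃ i, p ∣ r + a i)).card

/-- the product over the primes `p ≤ z` which occurs in the singular series -/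
noncomputable def sing {s : ℕ} (a : Fin s → ℕ) (z : ℕ) : ℝ :=
  ∏ p ∈ (Icc 1 z).filter Nat.Prime, (1 - (nu a p : ℝ) / p) / (1 - 1 / (p : ℝ)) ^ (s + 1)

/-- The singular series converges, and if `{0, a 1, ..., a s}` is admissible then its value `S` is positive and the number
of the `n ≤ N` for which `n` and all the `n + a i` are primes is `S N / log ^ (s + 1) N` up to a relative error of at most `ε`. -/
def HardyLittlewood {s : ℕ} (ε : ℝ) (N : ℕ) (a : Fin s → ℕ) : Prop :=
  ∃ S : ℝ, Filter.Tendsto (fun z => sing a z) Filter.atTop (nhds S) ∧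
    (Admissible a → 0 < S ∧
      |(count a N : ℝ) - S * (N / Real.log N ^ (s + 1))| ≤ ε * (S * (N / Real.log N ^ (s + 1))))

/-- The digits `a < b` act on the set `X` of the vertices: an edge with the label `a` leads from `x` to `y` if
`δ x a = some y` (at most one edge with the label `a` starts at `x`). The number of the edges from `x` to `y` equals the
number of the edges from `y` to `x`, and at least two edges start at every vertex. The graph may be infinite. -/
structure Graph {X : Type} (b : ℕ) (δ : X → ℕ → Option X) : Prop where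
  symm : ∀ x y : X, {a : ℕ | a < b ∧ δ x a = some y}.ncard = {a : ℕ | a < b ∧ δ y a = some x}.ncard
  two : ∀ x : X, ∃ a a' : ℕ, a < a' ∧ a' < b ∧ (δ x a).isSome ∧ (δ x a').isSome

open Classical in
/-- The integers `v < b ^ k` whose `k` digits in base `b`, from the most significant to the least significant one (the
digit number `i`, `0 ≤ i < k`, from the left is `v / b ^ (k - 1 - i) % b`), are the labels of a walk from `x` to `y`. -/
noncomputable def walks {X : Type} (b : ℕ) (δ : X → ℕ → Option X) (k : ℕ) (x y : X) : Finset ℕ :=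
  (range (b ^ k)).filter fun v =>
    ((List.range k).map fun i => v / b ^ (k - 1 - i) % b).foldl (fun s a => s.bind fun z => δ z a) (some x) = some y

lemma sing_eq {s : ℕ} (a : Fin s → ℕ) (z : ℕ) : Pool.Agent.H373R2.T7.singZ (fun i => (a i : ℤ)) z = sing a z := by
  unfold Pool.Agent.H373R2.T7.singZ sing
  apply prod_congr rfl
  intro p _
  have : Pool.Agent.H373R2.T7.nuP (fun i => (a i : ℤ)) p = nu a p := by
    unfold Pool.Agent.H373R2.T7.nuP nu
    congr 1
    apply filter_congr
    intro r _
    constructor
    · rintro (h | ⟨i, h⟩)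
      · exact Or.inl h
      · refine Or.inr ⟨i, ?_⟩
        simp only at h
        exact_mod_cast h
    · rintro (h | ⟨i, h⟩)
      · exact Or.inl h
      · refine Or.inr ⟨i, ?_⟩
        simp only
        exact_mod_cast h
  rw [this]

lemma adm_of {s : ℕ} (a : Fin s → ℕ) (h : Admissible a) : Pool.Agent.H373R2.T7.Admissible (fun i => (a i : ℤ)) := by
  intro p hp
  obtain ⟨c, h1, h2⟩ := h p hp
  refine ⟨-(c : ℤ), ?_, fun i => ?_⟩
  · intro h3
    apply h1
    rw [Int.dvd_neg] at h3
    have h4 : p ∣ c := by exact_mod_cast h3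
    exact ((Nat.modEq_zero_iff_dvd).2 h4).symm
  · intro h3
    apply h2 i
    apply Nat.ModEq.symm
    rw [Nat.modEq_iff_dvd]
    have e : ((a i : ℕ) : ℤ) - (c : ℤ) = -(c : ℤ) + a i := by ring
    rw [e]
    exact h3

lemma hl_of {s : ℕ} {ε : ℝ} {U N : ℕ} {a : Fin s → ℕ} (h : Pool.Agent.W93.TD.HLs ε U N a) : HardyLittlewood ε N a := by
  obtain ⟨S, h1, -, h3⟩ := h
  refine ⟨S, ?_, fun hadm => h3 (adm_of a hadm)⟩
  simp only [sing_eq] at h1
  exact h1

open Classical in
/-- **Prime tuples for all the multiples of integers given by walks.** Let `δ i`, for `i < s`, `s ≥ 1`, be graphs (infinite or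
not) whose edges are labelled with the digits in base `b`, let `x i` be a vertex of the `i`-th graph, and let `ρ i > 0` be such
that there are at most `ρ i ^ (2 n)` closed walks of the length `2 n` at `x i`, for all `n`. Let `κ i ≠ 0`, `D`, `B`, `J`, `J₂`,
`W`, `U` and `0 < ε < 1` be fixed, let `k` be large and let `k ^ (J + 1) b ^ k ≤ N ≤ k ^ J₂ b ^ k`. Let `y i` be vertices such
that the number of the walks of the length `k` from `x i` to `y i` is at least `ρ i ^ k / k ^ D`, and let `c i` be arbitrary
integers with `|c i| ≤ B b ^ k`. Then for all the vectors `(v 1, ..., v s)` such that the `k` digits of `v i` in base `b` are the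
labels of a walk from `x i` to `y i`, with the exception of a proportion of at most `1 / k ^ U` of these vectors, the
following holds for ALL the integers `q i ≥ 0` at a distance of at most `k ^ W` from `c i + κ i * v i` and ALL the factors
`1 ≤ h i ≤ k ^ J`: the singular series of the set `{0, h 1 * q 1, ..., h s * q s}` converges, and if this set is admissible
then the formula of Hardy and Littlewood holds for the number of the `n ≤ N` for which `n` and all the numbers
`n + h i * q i` are primes. In particular there is such an `n ≤ x` for every real number `x ≥ N`.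

(For a group of polynomial growth, a free group, or any group with the property of rapid decay, there are at least
`ρ ^ k / k ^ D` closed walks of every even length `k` in the Cayley graph, where `ρ` is its spectral radius.) -/
theorem result (s : ℕ) (hs : 1 ≤ s) (b : ℕ) (X : Fin s → Type) (δ : ∀ i, X i → ℕ → Option (X i))
    (hG : ∀ i, Graph b (δ i)) (x : ∀ i, X i) (ρ : Fin s → ℝ) (hρ : ∀ i, 0 < ρ i)
    (hR : ∀ i, ∀ n : ℕ, ((walks b (δ i) (2 * n) (x i) (x i)).card : ℝ) ≤ ρ i ^ (2 * n))
    (κ : Fin s → ℤ) (hκ : ∀ i, κ i ≠ 0) (D B J J₂ W U : ℕ) (ε : ℝ) (hε : 0 < ε) (hε1 : ε < 1) :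
    ∃ k₀ : ℕ, ∀ k : ℕ, k₀ ≤ k → ∀ y : ∀ i, X i,
      (∀ i, ρ i ^ k / (k : ℝ) ^ D ≤ (walks b (δ i) k (x i) (y i)).card) →
      ∀ c : Fin s → ℤ, (∀ i, |c i| ≤ B * (b : ℤ) ^ k) →
      ∀ N : ℕ, k ^ (J + 1) * b ^ k ≤ N → N ≤ k ^ J₂ * b ^ k →
      (((Fintype.piFinset fun i => walks b (δ i) k (x i) (y i)).filter fun v => ¬ ∀ q : Fin s → ℕ,
            (∀ i, |(q i : ℤ) - (c i + κ i * v i)| ≤ (k : ℤ) ^ W) → ∀ h : Fin s → ℕ, (∀ i, 1 ≤ h i ∧ h i ≤ k ^ J) →
            HardyLittlewood ε N (fun i => h i * q i) ∧ (Admissible (fun i => h i * q i) →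
              ∀ x : ℝ, (N : ℝ) ≤ x → ∃ n : ℕ, 0 < n ∧ (n : ℝ) ≤ x ∧ n.Prime ∧ ∀ i, (n + h i * q i).Prime)).card : ℝ) ≤
        (Fintype.piFinset fun i => walks b (δ i) k (x i) (y i)).card / (k : ℝ) ^ U := by
  have hb : 2 ≤ b := Pool.Agent.N625.GW.two_le (δ := δ ⟨0, by omega⟩) ⟨(hG _).symm, (hG _).two⟩ (x ⟨0, by omega⟩)
  have hT : ∀ i, Pool.Agent.N625.PT.TCls b (κ i) (Pool.Agent.N625.GW.WC b (δ i) (x i) (ρ i) D) :=
    fun i => Pool.Agent.U847.TI.w_tcls (b := b) (δ := δ i) ⟨(hG i).symm, (hG i).two⟩ (x i) (ρ i) (hρ i) (hR i) D (κ i) (hκ i)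
  obtain ⟨k₀, hmain⟩ := Pool.Agent.N625.PT.t_tuples s hs hb κ _ hT B J J₂ W U ε hε
  refine ⟨k₀ + 3, fun k hk y hy c hc N hN1 hN2 => ?_⟩
  refine Pool.Agent.U847.WT.w_nums hρ (by omega) hy _ (fun p hp => ?_)
  refine le_trans (sum_le_sum ?_) (hmain k (by omega) p hp c hc N hN1 hN2)
  intro v _
  have hpv : 0 ≤ ∏ i, p i (v i) := prod_nonneg fun i _ => (hT i).nonneg k (p i) (hp i) _
  by_cases h : ∀ h : Fin s → ℕ, (∀ i, 1 ≤ h i ∧ h i ≤ k ^ J) →
      ∀ q : Fin s → ℕ, (∀ i, |(q i : ℤ) - (c i + κ i * v i)| ≤ (k : ℤ) ^ W) →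
        Pool.Agent.W93.TD.HLs ε U N (fun i => h i * q i)
  · rw [if_pos h, if_pos]
    intro q hq h' hh'
    have h1 := hl_of (h h' hh' q hq)
    refine ⟨h1, fun hadm x hx => ?_⟩
    obtain ⟨S, -, h2⟩ := h1
    obtain ⟨hS, h3⟩ := h2 hadm
    have hN3 : 3 ≤ N := by
      have g1 : 1 * b ^ k ≤ k ^ (J + 1) * b ^ k := Nat.mul_le_mul_right _ (Nat.one_le_pow _ _ (by omega))
      have g2 : k < b ^ k := Nat.lt_pow_self (by omega)
      omega
    have hNr : (3 : ℝ) ≤ N := by exact_mod_cast hN3
    have hlog : 0 < Real.log N := Real.log_pos (by linarith)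
    have hpos : 0 < S * (N / Real.log N ^ (s + 1)) := by positivity
    have h4 : (0 : ℝ) < (count (fun i => h' i * q i) N : ℝ) := by
      have := (abs_le.1 h3).1
      nlinarith
    have h5 : 0 < count (fun i => h' i * q i) N := by exact_mod_cast h4
    unfold count at h5
    rw [card_pos] at h5
    obtain ⟨n, hn⟩ := h5
    rw [mem_filter, mem_Icc] at hn
    exact ⟨n, hn.1.1, le_trans (by exact_mod_cast hn.1.2) hx, hn.2.1, hn.2.2⟩
  · rw [if_neg h]
    split_ifs
    · exact hpv
    · exact le_rfl

end Pool.Agent.Results.MP_f686a1_nt.WalkMultiples
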